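import Pool.Agent.Helper91K1.IM.App

/-!
# The orders at the edge of all tensor powers: integer moments

`X` is a smooth projective variety over a number field `K`, for example over `K = ℚ`, `H = H^i(X)`, of
dimension `N`. The tensor power `H^{⊗ r}` is a part of `H^{ri}(X^r)`; the edge of `L(H^{⊗ r} ⊗ ψ, s)`, `ψ` an
Artin representation, is the point `r i / 2 + 1`. For `K = ℚ`, `r = 1` and `ψ = 1` it is the point `s₀` of the
problem. Nothing is assumed about the automorphy of `H`, and no hypothesis is made about the values of the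
orders: it is only supposed that the L-functions have meromorphic continuations to neighbourhoods of their
edges, as in the problem.

Let `t_v` be the normalised traces of Frobenius on `H`. If the L-functions of the tensor powers continue, then
their orders at the edges, with the sign changed, are the moments of the limiting distribution of the `t_v`: a
probability measure on `[-N, N]` with *integer moments*. By Fekete's theorem a set `{|q| ≤ s}`, `q` monic, `s < 2`
(of capacity less than one), has monic integer polynomials `P` with `|P| < 1` on it; the mean value of `P(t_v)²`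
is an integer, and so it is zero if almost all `t_v` lie in the set. The theorem is a dichotomy: either for every
such set the `t_v` lie outside it with positive lower density, bounded below independently of the variety, and
the orders of the poles grow at least like `a^(2r)` for every `a < 2`; or the `t_v` accumulate at the zeros of a
monic polynomial with integral coefficients, and the orders are power sums (this happens if the image of Galois
on the normalised `H` is finite).

The definitions of `IsPowerSystem`, `IsArtin`, `IsFrobeniusElement`, `HasOrder`, `IsFrobenius` are in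
`Pool.Agent.Y139.SM.GDefs`, `Pool.Agent.W353.AT.Defs`, `Pool.Agent.W353.EH.Defs` and `Pool.Agent.W353.EF.Defs`.
-/

set_option autoImplicit false

namespace Pool.Agent.Results.MP_2b9663_nt.IntegerMoments

open NumberField IsDedekindDomain Filter Topology Polynomial
open Pool.Agent.W353.EF (IsFrobenius)
open Pool.Agent.W353.EH (HasOrder)
open Pool.Agent.W353.AT (IsArtin IsFrobeniusElement)
open Pool.Agent.Y139.SM (IsPowerSystem)

/-- A variety `V` of dimension `d` over `K`, an integer `i`, where `N` is the `i`-th Betti number, the normalised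
traces `t_v` (the sum of the eigenvalues of the geometric Frobenius on `H^i(V)`, divided by `q_v ^ (i/2)`, for
almost all `v`; at the other primes `t_v` is any number of absolute value at most `N`), and a virtual Artin
character `w = ∑ c_a tr ψ_a` with `0 ≤ w ≤ W`; `σ_v` is an arithmetic Frobenius element at `v`. -/
structure Setting (K : Type) [Field K] [NumberField K] (N : ℕ) (W : ℝ) where
  l : ℕ
  d : ℕ
  i : ℕ
  V : Set (MvPolynomial (Fin l) (𝓞 K))
  hi : i ≤ 2 * d
  t : HeightOneSpectrum (𝓞 K) → ℝ
  abs_t : ∀ v, |t v| ≤ N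
  trace : ∀ᶠ v in cofinite, ∃ α : Fin N → ℂ, IsFrobenius V d i v α ∧
    ∑ j, α j = ((t v * (Ideal.absNorm v.asIdeal : ℝ) ^ ((i : ℝ) / 2) : ℝ) : ℂ)
  κ : Type
  fin : Fintype κ
  n : κ → ℕ
  ψ : ∀ a, Representation ℂ Gal(AlgebraicClosure K/K) (Fin (n a) → ℂ)
  artin : ∀ a, IsArtin (ψ a)
  c : κ → ℤ
  w : Gal(AlgebraicClosure K/K) → ℝ
  w_eq : ∀ g, (w g : ℂ) = ∑ a, (c a : ℂ) * (ψ a).character g
  w_nonneg : ∀ g, 0 ≤ w g
  w_le : ∀ g, w g ≤ W
  σ : HeightOneSpectrum (𝓞 K) → Gal(AlgebraicClosure K/K)
  frob : ∀ v, IsFrobeniusElement v (σ v)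

section
variable {K : Type} [Field K] [NumberField K] {N : ℕ} {W : ℝ}

/-- The functions `L(H^{⊗ r} ⊗ ψ_a, s)` have meromorphic continuations to neighbourhoods of the edge, of
orders `k_a`, and `∑ c_a k_a = -m`: the product of the `L(H^{⊗ r} ⊗ ψ_a, s) ^ c_a` has a pole of order `m`
(a zero of order `-m`) at the edge. -/
def Setting.Order (D : Setting K N W) (r : ℕ) (m : ℤ) : Prop :=
  ∃ (B : D.κ → HeightOneSpectrum (𝓞 K) → ℂ[X]) (k : D.κ → ℤ),
    (∀ a, IsPowerSystem D.V D.d D.i N r (D.ψ a) (B a)) ∧
    (∀ a, HasOrder (r * D.i) 0 (B a) (k a)) ∧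
    m = -(let _ := D.fin; ∑ a, D.c a * k a)

/-- The weight of `v`: the value of `w` at the geometric Frobenius. -/
noncomputable def Setting.wt (D : Setting K N W) (v : HeightOneSpectrum (𝓞 K)) : ℝ := D.w (D.σ v)⁻¹

/-- `∑ φ(v) q_v^{-(1 + ε)} / ∑ q_v^{-(1 + ε)}`; the limit for `ε → 0+` is the Dirichlet density of a set, if
`φ` is its indicator function. -/
noncomputable def dens (φ : HeightOneSpectrum (𝓞 K) → ℝ) (ε : ℝ) : ℝ :=
  (∑' v, φ v * ((Ideal.absNorm v.asIdeal : ℕ) : ℝ) ^ (-(1 + ε))) /
    ∑' v : HeightOneSpectrum (𝓞 K), ((Ideal.absNorm v.asIdeal : ℕ) : ℝ) ^ (-(1 + ε))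

open Classical in
/-- The finite case: `A` is the set of the roots of a monic polynomial with integral coefficients all of
whose roots are real, simple and of absolute value at most `N`; there are masses `c_x > 0`, `x ∈ A`, with
`m_r = ∑ c_x x^r` for all `r`; the `t_v` outside any neighbourhood of `A` have density zero (with the weight
`w`); and if `A` lies in `[-2, 2]`, then all elements of `A` are of the form `2 cos(2πk/n)`. -/
structure Setting.Finite (D : Setting K N W) (m : ℕ → ℤ) (A : Finset ℝ) : Prop where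
  integral : ∃ p : ℤ[X], p.Monic ∧ p.map (Int.castRingHom ℝ) = ∏ x ∈ A, (X - C x)
  bound : ∀ x ∈ A, |x| ≤ N
  orders : ∃ c : ℝ → ℝ, (∀ x ∈ A, 0 < c x) ∧ ∀ r, (m r : ℝ) = ∑ x ∈ A, c x * x ^ r
  density : ∀ δ : ℝ, 0 < δ →
    Tendsto (dens fun v => if ∃ x ∈ A, |D.t v - x| < δ then 0 else D.wt v) (𝓝[>] 0) (𝓝 0)
  cos : (∀ x ∈ A, |x| ≤ 2) → ∀ x ∈ A, ∃ k n : ℕ, 0 < n ∧ x = 2 * Real.cos (2 * Real.pi * k / n)

open Classical in
/-- The infinite case, for positive numbers `c(q, s)`: for every monic nonconstant real polynomial `q` and every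
`s < 2` the `v` with `|q(t_v)| > s` have lower density at least `c(q, s)` (with the weight `w`), and for every
positive `a < 2` we have `m_{2r} ≥ a^(2r)` for all large `r`. -/
structure Setting.Infinite (D : Setting K N W) (c : ℝ[X] → ℝ → ℝ) (m : ℕ → ℤ) : Prop where
  density : ∀ (q : ℝ[X]) (s : ℝ), q.Monic → 0 < q.natDegree → s < 2 →
    ∀ᶠ ε : ℝ in 𝓝[>] 0, c q s ≤ dens (fun v => if |q.eval (D.t v)| ≤ s then 0 else D.wt v) ε
  growth : ∀ a : ℝ, 0 < a → a < 2 → ∃ r₀ : ℕ, ∀ r ≥ r₀, a ^ (2 * r) ≤ m (2 * r)

end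

section
variable {K : Type} [Field K] [NumberField K] {N : ℕ} {W : ℝ}

open Pool.Agent.Helper91K1.IM

theorem has (D : Setting K N W) {r : ℕ} {m : ℤ} (h : D.Order r m) :
    Pool.Agent.W353.L1.Has (fun v => D.t v ^ r * D.wt v) m := by
  obtain ⟨B, k, h1, h2, h3⟩ := h
  let _ := D.fin
  have h4 := has_moment D.hi D.abs_t D.trace D.ψ D.artin D.c D.w_eq D.w_nonneg D.w_le
    (σ := D.σ) D.frob r B k h1 h2
  rw [h3]
  exact h4

theorem intMom (D : Setting K N W) {R : ℕ} {m : ℕ → ℤ} (h : ∀ r ≤ R, D.Order r (m r)) :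
    IntMom D.t D.wt N W R m :=
  ⟨D.abs_t, fun _ => D.w_nonneg _, fun _ => D.w_le _, fun r hr => has D (h r hr)⟩

theorem finite_of (D : Setting K N W) {m : ℕ → ℤ} {p : ℤ[X]} {A : Finset ℝ} {c : ℝ → ℝ}
    (h : Atoms m N p A c) (h' : Conc D.t D.wt A) : D.Finite m A :=
  ⟨⟨p, h.monic, h.prod⟩, h.bound, ⟨c, h.pos, h.mom⟩, fun δ hδ => dm_zero (h' δ hδ), h.cos⟩

open Classical in
theorem not_both (D : Setting K N W) {c : ℝ[X] → ℝ → ℝ} (hc : ∀ q s, 0 < c q s) {m : ℕ → ℤ}
    (hi : D.Infinite c m) {A : Finset ℝ} (hf : D.Finite m A) : False := by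
  set q : ℝ[X] := X * ∏ x ∈ A, (X - C x) with hq
  have hm : (∏ x ∈ A, (X - C x) : ℝ[X]).Monic := monic_prod_of_monic _ _ fun x _ => monic_X_sub_C x
  have hqm : q.Monic := monic_X.mul hm
  have hqd : 0 < q.natDegree := by
    rw [hq, monic_X.natDegree_mul hm, natDegree_X]
    omega
  set B : ℝ := (2 * N + 1) ^ A.card with hB
  have hN : (0 : ℝ) ≤ N := Nat.cast_nonneg _
  have hB1 : 1 ≤ B := one_le_pow₀ (by linarith)
  set δ : ℝ := 1 / (1 + N * B) with hδ
  have hδ0 : 0 < δ := by positivity
  have h1 := hi.density q 1 hqm hqd (by norm_num)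
  have hle : ∀ v, (if ∃ x ∈ A, |D.t v - x| < δ then |q.eval (D.t v)| ≤ 1 else True) := by
    intro v
    split_ifs with h2
    · obtain ⟨x, hx, hxd⟩ := h2
      rw [hq, eval_mul, eval_X, eval_prod, abs_mul, Finset.abs_prod]
      rw [← Finset.mul_prod_erase A _ hx]
      have h3 : |eval (D.t v) (X - C x)| ≤ δ := by
        rw [eval_sub, eval_X, eval_C]
        exact hxd.le
      have h4 : ∏ y ∈ A.erase x, |eval (D.t v) (X - C y)| ≤ B := by
        calc ∏ y ∈ A.erase x, |eval (D.t v) (X - C y)|
            ≤ ∏ _y ∈ A.erase x, (2 * N + 1 : ℝ) := by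
              refine Finset.prod_le_prod (fun _ _ => abs_nonneg _) fun y hy => ?_
              rw [eval_sub, eval_X, eval_C]
              have h5 := hf.bound y (Finset.mem_of_mem_erase hy)
              have h6 := D.abs_t v
              have h7 := abs_sub (D.t v) y
              linarith
          _ = (2 * N + 1 : ℝ) ^ (A.erase x).card := by rw [Finset.prod_const]
          _ ≤ B := pow_le_pow_right₀ (by linarith) (Finset.card_le_card (Finset.erase_subset _ _))
      calc |D.t v| * (|eval (D.t v) (X - C x)| * ∏ y ∈ A.erase x, |eval (D.t v) (X - C y)|)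
          ≤ N * (δ * B) := by
            refine mul_le_mul (D.abs_t v) (mul_le_mul h3 h4 ?_ hδ0.le) ?_ hN
            · exact Finset.prod_nonneg fun _ _ => abs_nonneg _
            · exact mul_nonneg (abs_nonneg _) (Finset.prod_nonneg fun _ _ => abs_nonneg _)
        _ = N * B / (1 + N * B) := by rw [hδ]; ring
        _ ≤ 1 := by
            rw [div_le_one (by positivity)]
            linarith
  have h5 : Pool.Agent.W353.L1.Has
      (fun v => if ∃ x ∈ A, |D.t v - x| < δ then 0 else D.wt v) 0 := by
    refine has_of_dm ⟨W, fun v => ?_⟩ (hf.density δ hδ0)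
    have hw : 0 ≤ D.wt v := D.w_nonneg _
    have hW : D.wt v ≤ W := D.w_le _
    split_ifs
    · rw [abs_zero]
      exact hw.trans hW
    · rw [abs_of_nonneg hw]
      exact hW
  have h6 := dm_zero (av_squeeze (φ := fun v => if |q.eval (D.t v)| ≤ 1 then 0 else D.wt v) h5
    (fun v => by
      have hw : 0 ≤ D.wt v := D.w_nonneg _
      split_ifs
      · exact le_rfl
      · exact hw) (fun v => by
      have hw : 0 ≤ D.wt v := D.w_nonneg _
      have h7 := hle v
      by_cases h8 : ∃ x ∈ A, |D.t v - x| < δ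
      · rw [if_pos h8] at h7
        rw [if_pos h8, if_pos h7]
      · rw [if_neg h8]
        split_ifs
        · exact hw
        · exact le_rfl))
  have h7 : ∀ᶠ ε : ℝ in 𝓝[>] 0, c q 1 ≤ dm (fun v => if |q.eval (D.t v)| ≤ 1 then 0 else D.wt v) ε :=
    h1
  have h8 := ge_of_tendsto h6 h7
  exact absurd h8 (not_le.2 (hc q 1))

end

/-- **The orders at the edge of all tensor powers: two cases.** Let `N` and `W` be given. There are positive
numbers `c(q, s)`, for real polynomials `q` and real numbers `s`, such that for every number field `K`, every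
variety over `K` with `i`-th Betti number `N` and every `w ≤ W`: if the L-functions for all tensor powers
continue to their edges, where the orders are `-m_r`, then exactly one of the following two statements is true.

The infinite case: for every monic nonconstant `q` and every `s < 2` the `v` with `|q(t_v)| > s` have lower
density at least `c(q, s)`, and for every `a < 2` we have `m_{2r} ≥ a^(2r)` for all large `r`.

The finite case: there are a finite set of totally real algebraic integers `x`, closed under conjugation, on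
which the `t_v` concentrate, and masses `c_x > 0` such that `m_r = ∑ c_x x^r` for all `r`. -/
theorem result (N : ℕ) (W : ℝ) :
    ∃ c : ℝ[X] → ℝ → ℝ, (∀ q s, 0 < c q s) ∧
      ∀ (K : Type) [Field K] [NumberField K] (D : Setting K N W) (m : ℕ → ℤ),
        (∀ r, D.Order r (m r)) → (D.Infinite c m ↔ ¬ ∃ A, D.Finite m A) := by
  classical
  have hex : ∀ (q : ℝ[X]) (s : ℝ), ∃ c : ℝ, 0 < c ∧ (q.Monic → 0 < q.natDegree → s < 2 →
      ∀ (K : Type) [Field K] [NumberField K] (D : Setting K N W) (m : ℕ → ℤ),
        (∀ r, D.Order r (m r)) →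
        (∀ᶠ ε : ℝ in 𝓝[>] 0,
          c ≤ dens (fun v => if |q.eval (D.t v)| ≤ s then 0 else D.wt v) ε) ∨
          ∃ A, D.Finite m A) := by
    intro q s
    by_cases hq : q.Monic ∧ 0 < q.natDegree ∧ s < 2
    · obtain ⟨P, hP, hPd, c, hc, hall⟩ := Pool.Agent.Helper91K1.IM.dich hq.1 hq.2.1 hq.2.2 N W
      refine ⟨c / 2, by positivity, fun _ _ _ K _ _ D m h => ?_⟩
      have h2 : ∀ R, Pool.Agent.Helper91K1.IM.IntMom D.t D.wt N W R m := fun R =>
        intMom D fun r _ => h r
      rcases hall K D.t D.wt m (h2 _) with h1 | h1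
      · exact Or.inl (Pool.Agent.Helper91K1.IM.dm_lower hc h1)
      · obtain ⟨p, A, c, h3, h4⟩ := Pool.Agent.Helper91K1.IM.finite_type h2 hP h1
        exact Or.inr ⟨A, finite_of D h3 h4⟩
    · exact ⟨1, one_pos, fun h1 h2 h3 => (hq ⟨h1, h2, h3⟩).elim⟩
  choose c hc hall using hex
  refine ⟨c, hc, fun K _ _ D m h => ⟨fun hi ⟨A, hf⟩ => not_both D hc hi hf, fun hno => ⟨?_, ?_⟩⟩⟩
  · intro q s hq hd hs
    exact (hall q s hq hd hs K D m h).resolve_right hno
  · intro a ha0 ha
    have h2 : ∀ R, Pool.Agent.Helper91K1.IM.IntMom D.t D.wt N W R m := fun R =>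
      intMom D fun r _ => h r
    rcases Pool.Agent.Helper91K1.IM.growth h2 ha0 ha with h3 | ⟨p, A, c, h3, h4, -⟩
    · exact h3
    · exact (hno ⟨A, finite_of D h3 h4⟩).elim

end Pool.Agent.Results.MP_2b9663_nt.IntegerMoments
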