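import Pool.Agent.Helper29X1.WG.BlkF

/-!
# Zeros and poles on the edge for all irreducible twists, of any dimension

`X` is a smooth projective variety over a number field `K`, for example over `K = ℚ`, `N` its `i`-th
Betti number.  The theorem bounds the zeros and poles of `L(H^i(X) ⊗ ρ ⊗ σ^∨, s)` on the whole edge
`Re s = i/2 + 1`, for irreducible unitary representations `ρ`, `σ` of the Weil group of `K` of any
dimension, for all of them together and by `N` alone: the matrix of the divisors (Fourier transformed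
along the line) has operator norm at most `N`.  Nothing is assumed about the automorphy of `H^i(X)`.

Inputs: Deligne's bound, the mean values of the products of the traces of two representations of the
Weil group, and the fact that an irreducible `ρ` is never isomorphic to `ρ ⊗ N^{-iτ}`, `τ ≠ 0`
(otherwise `tr ρ` would be concentrated on the primes with `N(v)^{iτ}` close to a sign, where it cannot
have mean square one, since it is bounded).  So the functions `tr ρ · N^{-iτ}` are orthonormal, and the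
logarithmic sizes of the `L`-functions at the edge form a block Toeplitz matrix of norm at most `N`.

Definitions from `Pool.Agent.N172.HS` (`Defs`, `Gr`, `Rep`, `Pa`), `Pool.Agent.W353.EF.Defs` and
`Pool.Agent.Helper29X1.WG` (`Tw`, `Blk`):

* `Variety K`: projective varieties with given equations, dimension and Betti numbers whose Frobenius
  eigenvalues (from the numbers of points) exist at almost all primes (`IsFrobenius`);
* `WRep K`: virtual representations `∑ c_j Ind χ_j` with unitary Hecke characters `χ_j` of finite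
  extensions `F_j` of `K` (`IsHecke`) and integers `c_j`; by the theorem of Brauer all
  finite-dimensional unitary representations of the Weil group of `K` are of this kind;
* `ρ.trace v`: the trace of the Frobenius at `v`; `ρ.inner σ`: the inner product of the characters, by
  the formula of Mackey; `ρ.IsIrr`: `ρ.inner ρ = 1`;
* `tw ρ τ = ρ ⊗ N^{-iτ}`, the representation `∑ c_j Ind (χ_j N^{-iτ})`;
* `Inequivalent ρ`: all `ρ_k` are irreducible, and for `k ≠ k'` the inner product of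
  `ρ_k ⊗ N^{-iτ}` and `ρ_k'` is zero for all real `τ`;
* `IsPairLine X i θ N' ρ σ B`: `H^i(X) = θ(-i/2) ⊕ H'` with `dim H' = N'` (for `θ = 0` and `N' = N`
  this is `H' = H^i(X)`), and `B` are the Euler factors of `L(H' ⊗ ρ ⊗ σ^∨, s)` at almost all
  primes; at the others arbitrary polynomials without zeros on the circle `|z| = q_v^{-i/2-1}`;
* `LFun B`: the Euler product `∏_v B_v(q_v^{-s})⁻¹`.
-/

set_option autoImplicit false

namespace Pool.Agent.Results.MP_2b9663_nt.IrreducibleTwists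

open Complex Filter Topology NumberField IsDedekindDomain Polynomial
open Pool.Agent.N172.HS (WRep Variety)
open Pool.Agent.W353.EF (LFun)
open Pool.Agent.Helper29X1.WG (Inequivalent IsPairLine)
open scoped ComplexConjugate

/-- `log |L(i/2 + 1 + iτ + ε)| / log(1/ε)`, which tends to minus the order of a meromorphic
continuation at `i/2 + 1 + iτ`. -/
noncomputable def sizeAt {K : Type} [Field K] [NumberField K] (i : ℕ)
    (B : HeightOneSpectrum (𝓞 K) → ℂ[X]) (τ ε : ℝ) : ℝ :=
  Real.log ‖LFun B ((i : ℂ) / 2 + 1 + τ * I + ε)‖ / Real.log (1 / ε)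

theorem size_eq {K : Type} [Field K] [NumberField K] (i : ℕ)
    (B : HeightOneSpectrum (𝓞 K) → ℂ[X]) (τ ε : ℝ) :
    sizeAt i B τ ε = Pool.Agent.W353.EF.size i (Pool.Agent.Helper29X1.WG.shift τ B) ε := by
  unfold sizeAt Pool.Agent.W353.EF.size
  rw [Pool.Agent.Helper29X1.WG.shift_LFun]
  have e : ((i : ℂ) / 2 + 1 + ε + τ * I) = (i : ℂ) / 2 + 1 + τ * I + ε := by ring
  rw [e]

open Pool.Agent.Helper29X1.WG in
/-- **The divisors on the edge for all irreducible twists.**  Let `X` be a variety over the number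
field `K`, `i ≤ 2 dim X`, and `H^i(X) = θ(-i/2) ⊕ H'`, `dim H' = N'` (for `θ = 0`, `N'` is the Betti number).
Let `ρ_k` and `σ_l` be finitely many irreducible representations of the Weil group of `K`, of
any dimensions, the `ρ_k` pairwise not isomorphic up to twists by `N^{-iτ}`, and the `σ_l` too.
(1) No continuation is assumed.  Let
`x_kl(τ, ε) = log |L(H' ⊗ ρ_k ⊗ σ_l^∨, i/2 + 1 + iτ + ε)| / log(1/ε)`.  For every finite set `F` of
real numbers and all complex `a_k(g)`, `b_l(h)`, `g, h ∈ F`, and `η > 0`: for all small `ε > 0`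
`|∑ a_k(g) conj(b_l(h)) x_kl(g - h, ε)| ≤ N' √(∑ |a_k(g)|² ∑ |b_l(h)|²) + η`.
(2) Let these functions have continuations, meromorphic at all points of the line `Re s = i/2 + 1`.
Then their orders `m_kl(τ)` at `i/2 + 1 + iτ` are finite and vanish outside of a finite set `S` of
numbers `τ`, for every real `x` the matrix `(∑_τ m_kl(τ) e^{iτx})_{k, l}` has operator norm at
most `N'`, and `∑_l ∑_τ m_kl(τ)² ≤ N'²` for every `k`.

For one `ρ` and the trivial `σ`: `|∑_τ m_τ e^{iτx}| ≤ N'` for all real `x` and `∑_τ m_τ² ≤ N'²`, for the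
orders `m_τ` of `L(H' ⊗ ρ, s)`; if there are no poles on the line then there are at most `N'` zeros, with
multiplicities (`x = 0`). -/
theorem result (K : Type) [Field K] [NumberField K] (X : Variety K) (i : ℕ) (hi : i ≤ 2 * X.dim)
    (θ : WRep K) (N' : ℕ) (κ μ : Type) [Fintype κ] [Fintype μ] (ρ : κ → WRep K) (σ : μ → WRep K)
    (hρ : Inequivalent ρ) (hσ : Inequivalent σ) (B : κ → μ → HeightOneSpectrum (𝓞 K) → ℂ[X])
    (hB : ∀ k l, IsPairLine X i θ N' (ρ k) (σ l) (B k l)) :
    (∀ (F : Finset ℝ) (a : κ → ℝ → ℂ) (b : μ → ℝ → ℂ) (η : ℝ), 0 < η → ∀ᶠ ε : ℝ in 𝓝[>] 0,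
      ‖∑ k, ∑ l, ∑ g ∈ F, ∑ h ∈ F, a k g * conj (b l h) * sizeAt i (B k l) (g - h) ε‖ ≤
        N' * Real.sqrt ((∑ k, ∑ g ∈ F, ‖a k g‖ ^ 2) * ∑ l, ∑ h ∈ F, ‖b l h‖ ^ 2) + η) ∧
    ∀ Λ : κ → μ → ℂ → ℂ, (∀ k l (τ : ℝ), MeromorphicAt (Λ k l) ((i : ℂ) / 2 + 1 + τ * I)) →
      (∀ k l (s : ℂ), (i : ℝ) / 2 + 1 < s.re → Λ k l s = LFun (B k l) s) →
      ∃ (m : κ → μ → ℝ → ℤ) (S : Finset ℝ),
        (∀ k l (τ : ℝ), meromorphicOrderAt (Λ k l) ((i : ℂ) / 2 + 1 + τ * I) = m k l τ) ∧
        (∀ k l, ∀ τ ∉ S, m k l τ = 0) ∧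
        (∀ (x : ℝ) (a : κ → ℂ) (b : μ → ℂ),
          ‖∑ k, ∑ l, a k * b l * ∑ τ ∈ S, (m k l τ : ℂ) * exp (τ * x * I)‖ ≤
            N' * Real.sqrt ((∑ k, ‖a k‖ ^ 2) * ∑ l, ‖b l‖ ^ 2)) ∧
        ∀ k, ∑ l, ∑ τ ∈ S, m k l τ ^ 2 ≤ (N' : ℤ) ^ 2 := by
  have main := fun (F : Finset ℝ) (a : κ → ℝ → ℂ) (b : μ → ℝ → ℂ) (η : ℝ) (hη : 0 < η) =>
    blk_main hi hρ hσ hB F a b hη
  refine ⟨fun F a b η hη => ?_, fun Λ h1 h2 => ?_⟩
  · simp only [size_eq]
    exact main F a b η hη
  choose m hm1 hm2 using fun k l =>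
    orders_gen (fun τ => (pairline_size hi (hB k l) τ).1) (h1 k l) (h2 k l)
  have H : ∀ (F : Finset ℝ) (a : κ → ℝ → ℂ) (b : μ → ℝ → ℂ),
      ‖∑ k, ∑ l, ∑ g ∈ F, ∑ h ∈ F, a k g * conj (b l h) * (m k l (g - h) : ℂ)‖ ≤
        (N' : ℝ) * Real.sqrt (sq F a * sq F b) := by
    intro F a b
    refine le_of_forall_pos_le_add fun η hη => ?_
    have h3 := main F a b η hη
    have h4 : Tendsto (fun ε => ‖∑ k, ∑ l, ∑ g ∈ F, ∑ h ∈ F,
        a k g * conj (b l h) * (Pool.Agent.W353.EF.size i (shift (g - h) (B k l)) ε : ℂ)‖)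
        (𝓝[>] 0) (𝓝 ‖∑ k, ∑ l, ∑ g ∈ F, ∑ h ∈ F,
          a k g * conj (b l h) * ((-(m k l (g - h) : ℝ) : ℝ) : ℂ)‖) := by
      refine (tendsto_finsetSum _ fun k _ => tendsto_finsetSum _ fun l _ =>
        tendsto_finsetSum _ fun g _ => tendsto_finsetSum _ fun h _ => ?_).norm
      exact (((Complex.continuous_ofReal.tendsto _).comp
        (Pool.Agent.Y149.Ord.tendsto_size (hm2 k l (g - h)))).const_mul _)
    have h5 := le_of_tendsto h4 h3
    have h6 : ∑ k, ∑ l, ∑ g ∈ F, ∑ h ∈ F,
          a k g * conj (b l h) * ((-(m k l (g - h) : ℝ) : ℝ) : ℂ) =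
        -∑ k, ∑ l, ∑ g ∈ F, ∑ h ∈ F, a k g * conj (b l h) * (m k l (g - h) : ℂ) := by
      simp only [← Finset.sum_neg_distrib]
      refine Finset.sum_congr rfl fun k _ => Finset.sum_congr rfl fun l _ =>
        Finset.sum_congr rfl fun g _ => Finset.sum_congr rfl fun h _ => ?_
      push_cast
      ring
    rwa [h6, norm_neg] at h5
  obtain ⟨S, hS⟩ := blk_fin (Nat.cast_nonneg N') H
  refine ⟨m, S, hm1, hS, fun x a b => blk_symbol H hS x a b, fun k => ?_⟩
  have h3 := blk_row (Nat.cast_nonneg N') H k S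
  exact_mod_cast h3

end Pool.Agent.Results.MP_2b9663_nt.IrreducibleTwists
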