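import Pool.Agent.Helper94.EC.Lit
import Pool.Agent.Helper94.EC.Full
import Pool.Agent.Helper94.EN.Three

set_option autoImplicit false

/-!
# Bounds of Littlewood's type at the edge of absolute convergence for elliptic curves over number fields

`K` is an arbitrary number field with an integral basis `ω_i`, `i ∈ I`, and `A`, `B` are polynomials with
coefficients in `𝓞 K` in finitely many variables `j ∈ J`.  For the vectors `c` of integers indexed by
`(J ⊔ {∗}) × I` let `a_j = ∑_i c_(j, i) ω_i` be the elements of `𝓞 K` with these coordinates and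

`E_c : y² = x³ + A(a) x + B(a) + a_∗`

(for `J` with one element, `A = a` and `B = 0` these are all the curves `y² = x³ + a x + b`,
`a, b ∈ 𝓞 K`, so up to isomorphism all the elliptic curves over `K`).  `L(E_c/K, s)` is the function
`L(X, s)` of the problem for the abelian variety `X = Res_{K/ℚ} E_c` over `ℚ` and `i = 1`; the edge of
absolute convergence is the line `Re s = 3/2`.

The Hasse-Weil conjecture and the Riemann hypothesis would give Littlewood's bounds
`|log L(s)| ≤ (2 + δ) log log log H` for `Re s ≥ 3/2` and bounded `|Im s|`, for curves of height `H`;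
for general `K` nothing is known near the line, and the trivial bound at the distance `1/log H` of the edge
is `2 log log H`.  We prove the bounds of Littlewood's type

(∗) `|log L(E ⊗ w_j, s)| ≤ (2 + δ) log log T` for all `y ≤ T ≤ G(t) ^ κ`, `j < T ^ l`, `|Im s| ≤ T ^ l` and
`Re s ≥ 3/2 + log (T t log G(t)) / (κ log G(t))` (and `Re s ≥ 3/2 + log (T log t) / (κ log t)` if `T ≤ t ^ κ`),

where `w_j` is an arbitrary sequence of functions of the prime ideals with values in the unit disc, such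
as `w_0 = 1` and the Hecke characters of `K`, for the curves of the following sequences.  The coordinates
are near real numbers `X_k(t)`, for example

* `X_k(t) = ξ_k g_k(t) + h_k(t)` for any real sequences `g_k`, `h_k` with
  `g_k(t + 1) - g_k(t) ≥ t ^ (ρ - 1)` and `g_k(t) ≥ G(t)` (such as `t ^ 2`, `2 ^ t`, `t !`, `2 ^ (2 ^ t)`, in any
  combination and with repetitions), for almost all real vectors `ξ`,
* `X_k(t) = ξ_k ^ g_k(t) + h_k(t)` with strictly increasing natural numbers `g_k(t)`, `β ^ g_k(t) ≥ G(t)`, for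
  almost all `ξ` with `ξ_k > β`;

here `G(t) ≥ t` is any real sequence, so that `G(t)` is a lower bound for the coefficients.  For all
`y ≥ y₀(ξ)` and all `N` the curve with the coordinates `⌊X(t)⌋` satisfies (∗) for all but the proportion
`y ^ (-k)` of the `t ∈ D`, `N < t ≤ 2 N`, where `D` is any set of natural numbers with at least `N ^ (1 - o(1))`
members in `(N, 2 N]`; and there are NO exceptions if `y ≥ N ^ ε`, even for all the curves whose
coordinates are within `t ^ C` of `X(t)`.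

So for `T = y` the values larger than `(2 + δ) log log y`, anywhere in this part of the plane and for any
twist, have the proportion `y ^ (-k)`: the tails of the distribution of the supremum are doubly
exponential (the starting results `ThinSequences` bound the mean of the square of the supremum).  And for
`g_k(t) = 2 ^ t` the height `H` of the curve is about `2 ^ t`, and with `T = (log H) ^ ε` this is exactly
Littlewood's bound `(2 + δ) log log log H` for EVERY large `t`, for all `|Im s| ≤ (log H) ^ (ε l)`, up to the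
distance `O(log log H / log H)` of the edge; no conjecture on the analytic continuation is used, and
there is no exceptional curve.

Proof. The high moments of the sums of the traces of Frobenius, twisted by the `w_j(v) q_v ^ (-iτ)`
(`Pool.Agent.N647.NG`, here for a growing set of weights), over the vectors of the integer parts for
`N < t ≤ 2 N` (`Pool.Agent.N54.ME`), which gives the primes up to a power of `t`, and as functions of `ξ` for a
fixed `t` with Borel-Cantelli (`Pool.Agent.Helper94.BC`), which gives the primes from `t ^ ε` to a power of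
`G(t)`.  The primes up to `T` contribute at most `2 ∑ 1/q_v ≤ (2 + δ) log log T` (Hasse; the pole of the zeta
function of `K`), the primes between `T` and a power of `G` at most `1/2` by square root cancellation,
and the primes beyond are negligible at this distance of the edge.
-/

namespace Pool.Agent.Results.MP_2b9663_nt.LittlewoodBounds

open NumberField IsDedekindDomain MeasureTheory Filter

section curves
variable {K : Type} [Field K] [NumberField K]

/-- `M v` is, for every `v`, an integral model of `E` with discriminant minimal at `v`. -/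
def MinimalModels (E : WeierstrassCurve K) (M : HeightOneSpectrum (𝓞 K) → WeierstrassCurve (𝓞 K)) : Prop :=
  ∀ v : HeightOneSpectrum (𝓞 K),
    (∃ C : WeierstrassCurve.VariableChange K, C • E = (M v).map (algebraMap (𝓞 K) K)) ∧
    ∀ W : WeierstrassCurve (𝓞 K),
      (∃ C : WeierstrassCurve.VariableChange K, C • E = W.map (algebraMap (𝓞 K) K)) →
        ∀ n : ℕ, (M v).Δ ∈ v.asIdeal ^ n → W.Δ ∈ v.asIdeal ^ n

/-- `a_v`: the norm `q_v` minus the number of the affine points of the reduction of the model `M v`; at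
the primes of bad reduction this is `1`, `-1` or `0`. -/
noncomputable def trace (M : HeightOneSpectrum (𝓞 K) → WeierstrassCurve (𝓞 K))
    (v : HeightOneSpectrum (𝓞 K)) : ℤ :=
  ((Ideal.absNorm v.asIdeal : ℕ) : ℤ) -
    ((Nat.card {p : (𝓞 K ⧸ v.asIdeal) × (𝓞 K ⧸ v.asIdeal) //
      p.2 ^ 2 + Ideal.Quotient.mk v.asIdeal (M v).a₁ * p.1 * p.2
        + Ideal.Quotient.mk v.asIdeal (M v).a₃ * p.2
      = p.1 ^ 3 + Ideal.Quotient.mk v.asIdeal (M v).a₂ * p.1 ^ 2
        + Ideal.Quotient.mk v.asIdeal (M v).a₄ * p.1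
        + Ideal.Quotient.mk v.asIdeal (M v).a₆} : ℕ) : ℤ)

open Classical in
/-- The polynomial `1 - w a_v T + w² q_v T²`, or `1 - w a_v T` at a prime of bad reduction, at
`T = q_v^{-s}`, where `w = w(v)`. -/
noncomputable def factor (M : HeightOneSpectrum (𝓞 K) → WeierstrassCurve (𝓞 K))
    (w : HeightOneSpectrum (𝓞 K) → ℂ) (s : ℂ) (v : HeightOneSpectrum (𝓞 K)) : ℂ :=
  1 - w v * ((trace M v : ℂ) * ((Ideal.absNorm v.asIdeal : ℕ) : ℂ) ^ (-s)) +
    w v ^ 2 * ((if (M v).Δ ∈ v.asIdeal then (0 : ℂ) else 1) *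
      ((Ideal.absNorm v.asIdeal : ℕ) : ℂ) ^ (1 - 2 * s))

/-- `L(E ⊗ w, s)`: for `w = 1` this is `L(E/K, s)`, and for a Hecke character `w` (`0` at the ramified
primes) it is the L-function of the twist of `E` by `w` up to the factors at finitely many primes. -/
noncomputable def LSeries (M : HeightOneSpectrum (𝓞 K) → WeierstrassCurve (𝓞 K))
    (w : HeightOneSpectrum (𝓞 K) → ℂ) (s : ℂ) : ℂ :=
  ∏' v : HeightOneSpectrum (𝓞 K), (factor M w s v)⁻¹

/-- The logarithm of `L(E ⊗ w, s)` given by the Euler product. -/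
noncomputable def logL (M : HeightOneSpectrum (𝓞 K) → WeierstrassCurve (𝓞 K))
    (w : HeightOneSpectrum (𝓞 K) → ℂ) (s : ℂ) : ℂ :=
  ∑' v : HeightOneSpectrum (𝓞 K), -Complex.log (factor M w s v)

/-- The bounds of Littlewood's type for all the twists of `E`: for all `T ≥ Y`, all `j < T ^ l` and all `s`
with `|Im s| ≤ T ^ l` the logarithm of `L(E ⊗ w_j, s)` is at most `(2 + δ) log log T` in absolute value, if
`T ≤ t ^ κ` and `Re s ≥ 3/2 + log (T log t) / (κ log t)`, or if `T ≤ G ^ κ` and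
`Re s ≥ 3/2 + log (T t log G) / (κ log G)`. -/
def Littlewood (κ δ : ℝ) (l : ℕ) (Y : ℝ) (t : ℕ) (G : ℝ) (w : ℕ → HeightOneSpectrum (𝓞 K) → ℂ)
    (E : WeierstrassCurve K) : Prop :=
  ∀ M : HeightOneSpectrum (𝓞 K) → WeierstrassCurve (𝓞 K), MinimalModels E M →
    ∀ T : ℕ, Y ≤ T → ∀ j < T ^ l, ∀ s : ℂ, |s.im| ≤ (T : ℝ) ^ l →
      (((T : ℝ) ≤ (t : ℝ) ^ κ ∧ 3 / 2 + Real.log (T * Real.log t) / (κ * Real.log t) ≤ s.re) ∨
          ((T : ℝ) ≤ G ^ κ ∧ 3 / 2 + Real.log (T * t * Real.log G) / (κ * Real.log G) ≤ s.re)) →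
        ‖logL M (w j) s‖ ≤ (2 + δ) * Real.log (Real.log T) ∧
          LSeries M (w j) s = Complex.exp (logL M (w j) s)

variable {I J : Type} [Fintype I]

/-- The element of `𝓞 K` with the coordinates `c (j, i)`, `i ∈ I`. -/
noncomputable def param (ω : Module.Basis I ℤ (𝓞 K)) (c : Option J × I → ℤ) (j : Option J) : 𝓞 K :=
  ∑ i, ((c (j, i) : ℤ) : 𝓞 K) * ω i

/-- The curve `y² = x³ + A(a) x + B(a) + a_∗`; here `a_j`, `j ∈ J`, and `a_∗` are the elements of `𝓞 K`
with the coordinates `c`. -/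
noncomputable def curve (ω : Module.Basis I ℤ (𝓞 K)) (A B : MvPolynomial J (𝓞 K))
    (c : Option J × I → ℤ) : WeierstrassCurve K where
  a₁ := 0
  a₂ := 0
  a₃ := 0
  a₄ := (MvPolynomial.eval (fun j => param ω c (some j)) A : 𝓞 K)
  a₆ := (MvPolynomial.eval (fun j => param ω c (some j)) B + param ω c none : 𝓞 K)

end curves

/-- `D` has at least `N ^ (1 - ε)` members in `(N, 2 N]` for every `ε > 0` and all large `N`. -/
def Many (D : Set ℕ) : Prop :=
  ∀ ε : ℝ, 0 < ε → ∃ N₀ : ℕ, ∀ N : ℕ, N₀ ≤ N →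
    (N : ℝ) ^ (1 - ε) ≤ ({t : ℕ | N < t ∧ t ≤ 2 * N ∧ t ∈ D}.ncard : ℝ)

/-- The derivatives of the consecutive functions `F t` are separated on `[u, v]` and their second
derivatives increase. -/
def Spread (ρ u v : ℝ) (F : ℕ → ℝ → ℝ) : Prop :=
  (∀ t, ContDiff ℝ 2 (F t)) ∧ ∃ t₀ : ℕ, ∀ t, t₀ ≤ t → ∀ x ∈ Set.Icc u v,
    (t : ℝ) ^ (ρ - 1) ≤ deriv (F (t + 1)) x - deriv (F t) x ∧
      deriv (deriv (F t)) x ≤ deriv (deriv (F (t + 1))) x

/-- `F` is continuous, convex on `[u, v]`, and its slopes there are at least `G`. -/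
def Steep (u v G : ℝ) (F : ℝ → ℝ) : Prop :=
  Continuous F ∧ ConvexOn ℝ (Set.Icc u v) F ∧
    ∀ x y, u ≤ x → x ≤ y → y ≤ v → G * (y - x) ≤ F y - F x

/-- The property `B` of sequences of real vectors holds for almost all members of the following
families: (1) the sequences `F_i(t) (ξ_i)` for all functions with separated derivatives which are convex
with slopes at least `G(t)`, (2) the sequences `ξ_i g_i(t) + c_i(t)` for all real sequences `g_i` with
`g_i(t + 1) - g_i(t) ≥ t ^ (ρ - 1)` and `g_i(t) ≥ G(t)` for large `t` and all real sequences `c_i`, (3) the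
sequences `ξ_i ^ g_i(t) + c_i(t)`, `ξ_i > β`, for all strictly increasing sequences `g_i` of natural numbers
with `β ^ g_i(t) ≥ G(t)` for large `t` and all real sequences `c_i`. -/
def Families {ι : Type} [Fintype ι] (ρ : ℝ) (G : ℕ → ℝ) (B : (ℕ → ι → ℝ) → Prop) : Prop :=
  (∀ (u v : ι → ℝ) (F : ι → ℕ → ℝ → ℝ), (∀ i, Spread ρ (u i) (v i) (F i)) →
    (∀ i, ∀ᶠ t in atTop, Steep (u i) (v i) (G t) (F i t)) →
      ∀ᵐ ξ : ι → ℝ, (∀ i, ξ i ∈ Set.Ioc (u i) (v i)) → B (fun t i => F i t (ξ i))) ∧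
  (∀ g c : ι → ℕ → ℝ, (∀ i, ∀ᶠ t : ℕ in atTop, (t : ℝ) ^ (ρ - 1) ≤ g i (t + 1) - g i t) →
    (∀ i, ∀ᶠ t in atTop, G t ≤ g i t) → ∀ᵐ ξ : ι → ℝ, B (fun t i => ξ i * g i t + c i t)) ∧
  (∀ (β : ℝ) (g : ι → ℕ → ℕ) (c : ι → ℕ → ℝ), 1 < β → (∀ i, StrictMono (g i)) →
    (∀ i, ∀ᶠ t in atTop, G t ≤ β ^ g i t) →
      ∀ᵐ ξ : ι → ℝ, (∀ i, β < ξ i) → B (fun t i => ξ i ^ g i t + c i t))

lemma blk_eq (D : Set ℕ) (N : ℕ) :
    {t : ℕ | N < t ∧ t ≤ 2 * N ∧ t ∈ D} = (Pool.Agent.Helper94.EN.blk D N : Set ℕ) := by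
  ext t
  unfold Pool.Agent.Helper94.EN.blk
  simp only [Set.mem_ofPred_eq, Finset.coe_filter, Finset.mem_Ioc]
  tauto

lemma many_iff {D : Set ℕ} (h : Many D) : Pool.Agent.Helper94.EN.Many D := by
  intro ε hε
  obtain ⟨N₀, hN₀⟩ := h ε hε
  refine ⟨N₀, fun N hN => ?_⟩
  have := hN₀ N hN
  rw [blk_eq, Set.ncard_coe_finset] at this
  exact this

section
variable {K : Type} [Field K] [NumberField K] {I J : Type} [Fintype I]

/-- the deterministic part -/
theorem little (ω : Module.Basis I ℤ (𝓞 K)) (A B : MvPolynomial J (𝓞 K)) (δ : ℝ) (hδ : 0 < δ) :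
    ∃ y₀ : ℕ, ∀ (κ : ℝ) (l : ℕ) (Y : ℝ) (t : ℕ) (G : ℝ), 0 < κ → (y₀ : ℝ) ≤ Y → 3 ≤ t → 3 ≤ G →
      ∀ w : ℕ → HeightOneSpectrum (𝓞 K) → ℂ, (∀ j v, ‖w j v‖ ≤ 1) → ∀ c : Option J × I → ℤ,
      Pool.Agent.Helper94.EC.EF ω A B κ (1 / 2) l Y t G w c → Littlewood κ δ l Y t G w (curve ω A B c) := by
  obtain ⟨y₀, hy₀⟩ := Pool.Agent.Helper94.EC.lit (K := K) δ hδ
  refine ⟨y₀ + 4, fun κ l Y t G hκ hY ht hG w hw c hc M hM T hYT j hj s hs2 hs3 => ?_⟩
  have hyT : y₀ + 4 ≤ T := by exact_mod_cast hY.trans hYT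
  have hT4 : (4 : ℝ) ≤ T := by exact_mod_cast (by omega : 4 ≤ T)
  have ht3 : (3 : ℝ) ≤ t := by exact_mod_cast ht
  have hs4 : 3 / 2 < s.re := by
    have hexp := Real.exp_one_lt_d9
    have hlt : 1 ≤ Real.log t := by
      rw [Real.le_log_iff_exp_le (by linarith)]
      linarith
    have hlG : 1 ≤ Real.log G := by
      rw [Real.le_log_iff_exp_le (by linarith)]
      linarith
    rcases hs3 with ⟨_, hs3⟩ | ⟨_, hs3⟩
    · have h5 : (1 : ℝ) < T * Real.log t := by nlinarith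
      have h7 := Real.log_pos h5
      have h8 : 0 < Real.log (T * Real.log t) / (κ * Real.log t) :=
        div_pos h7 (mul_pos hκ (by linarith))
      linarith
    · have h12 : (12 : ℝ) ≤ T * t := by nlinarith
      have h5 : (1 : ℝ) < T * t * Real.log G := by nlinarith
      have h7 := Real.log_pos h5
      have h8 : 0 < Real.log (T * t * Real.log G) / (κ * Real.log G) :=
        div_pos h7 (mul_pos hκ (by linarith))
      linarith
  refine ⟨?_, Pool.Agent.Helper94.EC.tprod_eq M (w j) (hw j) hs4⟩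
  refine hy₀ M (w j) (hw j) s hs4 T (by omega) fun T₂ hT₂ => ?_
  have h2 := (hc M hM T hYT j hj T₂ hT₂ s (by linarith) hs2 (Or.inr hs3)).2
  refine h2.trans ?_
  have h3 : (T : ℝ) ^ (1 + 1 / 2 - s.re) ≤ 1 :=
    Real.rpow_le_one_of_one_le_of_nonpos (by linarith) (by linarith)
  linarith

lemma ef_mono (ω : Module.Basis I ℤ (𝓞 K)) (A B : MvPolynomial J (𝓞 K)) {κ δ δ' : ℝ} {l : ℕ} {Y Y' : ℝ} {t : ℕ}
    {G : ℝ} {w : ℕ → HeightOneSpectrum (𝓞 K) → ℂ} {c : Option J × I → ℤ} (hδ : δ ≤ δ') (hY : Y ≤ Y') (hY1 : 1 ≤ Y)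
    (h : Pool.Agent.Helper94.EC.EF ω A B κ δ l Y t G w c) : Pool.Agent.Helper94.EC.EF ω A B κ δ' l Y' t G w c := by
  intro V hV T₁ hYT j hj T₂ hT12 s hs1 hs2 hs3
  obtain ⟨h1, h2⟩ := h V hV T₁ (hY.trans hYT) j hj T₂ hT12 s (by linarith) hs2 hs3
  have h3 : (T₁ : ℝ) ^ (1 + δ - s.re) ≤ (T₁ : ℝ) ^ (1 + δ' - s.re) :=
    Real.rpow_le_rpow_of_exponent_le (hY1.trans (hY.trans hYT)) (by linarith)
  exact ⟨h1.trans h3, by linarith⟩

/-- **Bounds of Littlewood's type near the edge of absolute convergence.** -/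
theorem result [Fintype J] (ω : Module.Basis I ℤ (𝓞 K)) (A B : MvPolynomial J (𝓞 K)) (ρ : ℝ) (hρ : 0 < ρ) (hρ1 : ρ ≤ 1)
    (k l : ℕ) (ε C : ℝ) (hε : 0 < ε) (hC : 0 ≤ C) :
    ∃ κ : ℝ, 0 < κ ∧ ∀ w : ℕ → HeightOneSpectrum (𝓞 K) → ℂ, (∀ j v, ‖w j v‖ ≤ 1) →
      ∀ D : Set ℕ, Many D → ∀ G : ℕ → ℝ, (∀ᶠ t : ℕ in atTop, (t : ℝ) ≤ G t) →
      Families ρ G fun X : ℕ → Option J × I → ℝ => ∀ δ : ℝ, 0 < δ →
        ∃ y₀ : ℕ, ∀ y N : ℕ, y₀ ≤ y →
          ((N : ℝ) ^ ε ≤ y → ∀ t : ℕ, N < t → t ≤ 2 * N → ∀ z : Option J × I → ℤ,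
            (∀ i, |(z i : ℝ) - X t i| ≤ (t : ℝ) ^ C) →
              Littlewood κ δ l y t (G t) w (curve ω A B z)) ∧
          ({t : ℕ | N < t ∧ t ≤ 2 * N ∧ t ∈ D ∧
            ¬ Littlewood κ δ l y t (G t) w (curve ω A B fun i => ⌊X t i⌋)}.ncard : ℝ) ≤
            1 / (y : ℝ) ^ k * {t : ℕ | N < t ∧ t ≤ 2 * N ∧ t ∈ D}.ncard := by
  classical
  have hI : Nonempty I := by
    by_contra hI
    rw [not_nonempty_iff] at hI
    have h1 : (1 : 𝓞 K) = 0 := by
      have := ω.sum_repr (1 : 𝓞 K)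
      rw [← this]
      simp
    exact one_ne_zero h1
  obtain ⟨κ₁, hκ₁, hκ₁', hmet⟩ := Pool.Agent.Helper94.EC.ec_metric ω A B
    (Pool.Agent.N54.ME.kap_pos hρ (Fintype.card (Option J × I))) (1 / 2 / 2) (by norm_num) k l
  obtain ⟨ε', hε'⟩ : ∃ ε' : ℝ, ε' = min (ε / 2) (κ₁ / 2) := ⟨_, rfl⟩
  have hε0 : 0 < ε' := by rw [hε']; exact lt_min (by positivity) (by positivity)
  have hε1 : ε' ≤ ε / 2 := by rw [hε']; exact min_le_left _ _
  have hε2 : ε' ≤ κ₁ / 2 := by rw [hε']; exact min_le_right _ _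
  obtain ⟨κ₂, hκ₂, hκ₂', hev⟩ := Pool.Agent.Helper94.EC.ec_every ω A B (1 / 2 / 2) (by norm_num) l ε' C hε0 hC
  obtain ⟨N₀, y₁, hcomp⟩ := Pool.Agent.Helper94.EC.EF_comp ω A B hκ₁ hκ₁' hκ₂ (show (0 : ℝ) < 1 / 2 by norm_num) ε' hε0 hε2
  obtain ⟨κ, hκ⟩ : ∃ κ : ℝ, κ = min κ₁ κ₂ / 2 := ⟨_, rfl⟩
  have hκ0 : 0 < κ := by rw [hκ]; have := lt_min hκ₁ hκ₂; positivity
  have hκ2 : κ ≤ κ₂ := by rw [hκ]; have := min_le_right κ₁ κ₂; linarith
  rw [← hκ] at hcomp
  refine ⟨κ, hκ0, fun w hw D hD G hG => ?_⟩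
  have hGt : Tendsto G atTop atTop := tendsto_atTop_mono' atTop hG tendsto_natCast_atTop_atTop
  -- the deterministic part
  have hboth : ∀ X : ℕ → Option J × I → ℝ,
      (∃ y₀ : ℕ, ∀ y N : ℕ, y₀ ≤ y →
        (((Pool.Agent.Helper94.EN.blk D N).filter fun t => ¬ Pool.Agent.Helper94.EC.EG ω A B κ₁ (1 / 2 / 2) l y N w
          (fun i => ⌊X t i⌋)).card : ℝ) ≤ 1 / (y : ℝ) ^ k * (Pool.Agent.Helper94.EN.blk D N).card) →
      (∀ᶠ t : ℕ in atTop, ∀ z : Option J × I → ℤ, (∀ i, |(z i : ℝ) - X t i| ≤ (t : ℝ) ^ C) →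
        Pool.Agent.Helper94.EC.EG ω A B κ₂ (1 / 2 / 2) l ((t : ℝ) ^ ε') (G t) w z) →
      ∀ δ : ℝ, 0 < δ → ∃ y₀ : ℕ, ∀ y N : ℕ, y₀ ≤ y →
          ((N : ℝ) ^ ε ≤ y → ∀ t : ℕ, N < t → t ≤ 2 * N → ∀ z : Option J × I → ℤ,
            (∀ i, |(z i : ℝ) - X t i| ≤ (t : ℝ) ^ C) →
              Littlewood κ δ l y t (G t) w (curve ω A B z)) ∧
          ({t : ℕ | N < t ∧ t ≤ 2 * N ∧ t ∈ D ∧
            ¬ Littlewood κ δ l y t (G t) w (curve ω A B fun i => ⌊X t i⌋)}.ncard : ℝ) ≤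
            1 / (y : ℝ) ^ k * {t : ℕ | N < t ∧ t ≤ 2 * N ∧ t ∈ D}.ncard := by
    rintro X ⟨y₃, h3⟩ h4 δ hδ
    obtain ⟨y₂, hpred⟩ := little ω A B δ hδ
    have hy' : Tendsto (fun t : ℕ => (t : ℝ) ^ ε') atTop atTop :=
      (tendsto_rpow_atTop hε0).comp tendsto_natCast_atTop_atTop
    obtain ⟨t₀, ht₀⟩ := eventually_atTop.1 (h4.and (hG.and ((eventually_ge_atTop 4).and
      (hy'.eventually (eventually_ge_atTop 4)))))
    obtain ⟨P, hP⟩ : ∃ P : ℕ, P = ∑ t ∈ Finset.range (2 * (N₀ + t₀) + 1),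
      (⌈(G t) ^ κ⌉₊ + ⌈(t : ℝ) ^ κ⌉₊) := ⟨_, rfl⟩
    have hPle : ∀ t : ℕ, t ≤ 2 * (N₀ + t₀) → (G t) ^ κ ≤ P ∧ (t : ℝ) ^ κ ≤ P := by
      intro t ht
      have h5 : ⌈(G t) ^ κ⌉₊ + ⌈(t : ℝ) ^ κ⌉₊ ≤ P := by
        rw [hP]
        exact Finset.single_le_sum (f := fun t : ℕ => ⌈(G t) ^ κ⌉₊ + ⌈(t : ℝ) ^ κ⌉₊) (fun _ _ => Nat.zero_le _)
          (Finset.mem_range.2 (by omega))
      constructor
      · exact (Nat.le_ceil _).trans (by exact_mod_cast (by omega : ⌈(G t) ^ κ⌉₊ ≤ P))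
      · exact (Nat.le_ceil _).trans (by exact_mod_cast (by omega : ⌈(t : ℝ) ^ κ⌉₊ ≤ P))
    -- there is nothing to prove for the finitely many small `t`
    have hsm : ∀ (y t : ℕ) (z : Option J × I → ℤ), P < y → t ≤ 2 * (N₀ + t₀) →
        Littlewood κ δ l y t (G t) w (curve ω A B z) := by
      intro y t z hy hsmall
      obtain ⟨hG1, hG2⟩ := hPle t hsmall
      intro M hM T₁ hYT j hj s hs2 hs3
      have h7 : (P : ℝ) < T₁ := by
        have : y ≤ T₁ := by exact_mod_cast hYT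
        exact_mod_cast (by omega : P < T₁)
      exfalso
      rcases hs3 with ⟨h8, _⟩ | ⟨h8, _⟩ <;> linarith
    refine ⟨y₁ + y₂ + y₃ + P + 1, fun y N hy => ⟨fun hNy t htN ht2N z hz => ?_, ?_⟩⟩
    · by_cases hsmall : t ≤ 2 * (N₀ + t₀)
      · exact hsm y t z (by omega) hsmall
      · push Not at hsmall
        obtain ⟨ht1, ht2, ht3, ht4⟩ := ht₀ t (by omega)
        have ht3' : (4 : ℝ) ≤ t := by exact_mod_cast ht3
        have hN2 : (t : ℝ) / 2 ≤ N := by
          have : (t : ℝ) ≤ 2 * N := by exact_mod_cast ht2N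
          linarith
        have h5 : (t : ℝ) ^ ε' ≤ y := by
          calc (t : ℝ) ^ ε' ≤ (t : ℝ) ^ (ε / 2) := Real.rpow_le_rpow_of_exponent_le (by linarith) hε1
            _ = ((t : ℝ) ^ (1 / 2 : ℝ)) ^ ε := by
                rw [← Real.rpow_mul (by linarith)]
                congr 1
                ring
            _ ≤ ((t : ℝ) / 2) ^ ε := by
                refine Real.rpow_le_rpow (by positivity) ?_ hε.le
                rw [← Real.sqrt_eq_rpow, Real.sqrt_le_left (by linarith)]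
                nlinarith
            _ ≤ (N : ℝ) ^ ε := Real.rpow_le_rpow (by linarith) hN2 hε.le
            _ ≤ y := hNy
        have hy1 : (1 : ℝ) ≤ (t : ℝ) ^ ε' := Real.one_le_rpow (by linarith) hε0.le
        refine hpred κ l _ t (G t) hκ0 (by exact_mod_cast (by omega : y₂ ≤ y)) (by omega) (by linarith) w hw z ?_
        exact ef_mono ω A B (by norm_num) h5 hy1
          (Pool.Agent.Helper94.EC.EF_of_EG ω A B hκ0 hκ2 (by linarith) (by omega) ht2 w z (ht1 z hz))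
    · rw [blk_eq, Set.ncard_coe_finset]
      refine le_trans (Nat.cast_le.2 ?_) (h3 y N (by omega))
      have h1 : {t : ℕ | N < t ∧ t ≤ 2 * N ∧ t ∈ D ∧
          ¬ Littlewood κ δ l y t (G t) w (curve ω A B fun i => ⌊X t i⌋)} ⊆
          (((Pool.Agent.Helper94.EN.blk D N).filter fun t => ¬ Pool.Agent.Helper94.EC.EG ω A B κ₁ (1 / 2 / 2) l y N w
            (fun i => ⌊X t i⌋) : Finset ℕ) : Set ℕ) := by
        rintro t ⟨h1, h2, h5, h6⟩
        rw [Finset.mem_coe, Finset.mem_filter]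
        constructor
        · unfold Pool.Agent.Helper94.EN.blk
          rw [Finset.mem_filter, Finset.mem_Ioc]
          exact ⟨⟨h1, h2⟩, h5⟩
        · intro hEG
          apply h6
          by_cases hsmall : t ≤ 2 * (N₀ + t₀)
          · exact hsm y t _ (by omega) hsmall
          · push Not at hsmall
            obtain ⟨ht1, ht2, ht3, ht4⟩ := ht₀ t (by omega)
            have ht3' : (4 : ℝ) ≤ t := by exact_mod_cast ht3
            refine hpred κ l _ t (G t) hκ0 (by exact_mod_cast (by omega : y₂ ≤ y)) (by omega) (by linarith) w hw _ ?_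
            refine hcomp l y N t (G t) (by omega) (by omega) h1 h2 ht2 w _ hEG (ht1 _ fun i => ?_)
            have h9 := Int.floor_le (X t i)
            have h10 := Int.lt_floor_add_one (X t i)
            have h11 : (1 : ℝ) ≤ (t : ℝ) ^ C := Real.one_le_rpow (by linarith) hC
            rw [abs_le]
            constructor <;> linarith
      have h2 := Set.ncard_le_ncard h1 (Finset.finite_toSet _)
      rwa [Set.ncard_coe_finset] at h2
  obtain ⟨m1, m2, m3⟩ := Pool.Agent.Helper94.EN.threeD (ι := Option J × I) (many_iff hD) hρ hρ1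
    (fun x => ∃ y₀ : ℕ, ∀ y N : ℕ, y₀ ≤ y →
        (((Pool.Agent.Helper94.EN.blk D N).filter fun t => ¬ Pool.Agent.Helper94.EC.EG ω A B κ₁ (1 / 2 / 2) l y N w
          (x t)).card : ℝ) ≤ 1 / (y : ℝ) ^ k * (Pool.Agent.Helper94.EN.blk D N).card) (fun x hx => by
      obtain ⟨y₀, hy₀⟩ := hmet D x hx
      exact ⟨y₀, fun y N hy => hy₀ y N hy w hw _ fun c hc => hc⟩)
  obtain ⟨e1, e2, e3⟩ := hev w hw G hGt
  refine ⟨fun u v F hF hS => ?_, fun g c hg hG' => ?_, fun β g c hβ hg hG' => ?_⟩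
  · filter_upwards [m1 u v F hF, e1 u v F fun i => by
      filter_upwards [hS i] with t ht
      exact ⟨ht.1, ht.2.1, ht.2.2⟩] with ξ hξ1 hξ2 hξ
    exact hboth _ (hξ1 hξ) (hξ2 hξ)
  · filter_upwards [m2 g c hg, e2 g c hG'] with ξ hξ1 hξ2
    exact hboth _ hξ1 hξ2
  · filter_upwards [m3 g c hg, e3 β g c hβ hG'] with ξ hξ1 hξ2 hξ
    exact hboth _ (hξ1 fun i => hβ.trans (hξ i)) (hξ2 hξ)

end

end Pool.Agent.Results.MP_2b9663_nt.LittlewoodBounds
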