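import Pool.Agent.Helper29X1.WG.WtD

/-!
# Nonvanishing on the whole edge for twists with small support

`X` is a smooth projective variety over a number field `K`, for example over `K = ℚ`, and `ρ` any
irreducible unitary representation of the Weil group of `K`, of any dimension: for example an Artin
representation, or `Ind χ` for a Hecke character `χ` of a finite extension `F`, in which case
`L(H^i(X) ⊗ ρ, s) = L(H^i(X_F) ⊗ χ, s)`.  Let `N` be the `i`-th Betti number and `δ ≤ 1` the mean value of
a weight which dominates the set of the primes `v` with `tr ρ(Frob_v) ≠ 0`.  The theorem says that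
`∑ m_τ² ≤ N² δ` for the orders `m_τ` of `L(H^i(X) ⊗ ρ, s)` at the points `i/2 + 1 + iτ` of the edge.  So
there are no zeros and no poles at all on the edge if `δ < 1/N²`, and also if `δ < 2/N²` and `ρ` is not
self-dual up to a twist by some `N^{-iτ}`.  Nothing is assumed about the automorphy of `H^i(X)`, nor
about the continuation of any other L-function, and there is a version without any continuation.

The weights are the functions `∑ c_j n_j(v)` for finite extensions `F_j` of `K` and real numbers `c_j`,
`n_j(v)` the number of the primes of `F_j` above `v` of degree one over `K`; the mean value is `∑ c_j`.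

* If `tr ρ` is zero at the primes without a prime of degree one in `F`, for example for `ρ = Ind χ`, and
  `F` has `r` automorphisms over `K`, for example `F/K` is Galois of degree `r`, then `n_F(v)/r` is a
  dominating weight (`automorphisms` and `induced` below) and `δ = 1/r`: for every Galois extension `F`
  of `K` of degree `r > N²` and every Hecke character `χ` of `F` for which `Ind χ` is irreducible (its
  conjugates over `K` are different), `L(H^i(X_F) ⊗ χ, s)` has no zeros and no poles on the edge.
* If `ρ` has finite image then by the theorem of Artin on the rational characters of a finite group the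
  indicator function of the primes with `tr ρ(Frob_v) ≠ 0` is such a weight, so that `δ` can be the
  density of this set.

More generally `H^i(X) = θ(-i/2) ⊕ H'` with a representation `θ` of the Weil group, and the theorem is
about `L(H' ⊗ ρ, s)`, `N' = dim H'` in place of `N`.

Definitions from `Pool.Agent.N172.HS` (`Defs`, `Gr`, `Rep`, `Pa`), `Pool.Agent.W353.EF.Defs` and
`Pool.Agent.Helper29X1.WG` (`Tw`, `WtA`, `WtB`, `WtD`):

* `Variety K`: projective varieties with given equations, dimension and Betti numbers whose Frobenius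
  eigenvalues (from the numbers of points) exist at almost all primes (`IsFrobenius`);
* `WRep K`: virtual representations `∑ c_j Ind χ_j` with unitary Hecke characters `χ_j` of finite
  extensions of `K` (`IsHecke`) and integers `c_j`; by the theorem of Brauer all finite-dimensional
  unitary representations of the Weil group of `K` are of this kind; `ρ.trace v`: the trace of
  Frobenius; `ρ.inner σ`: the inner product of the characters, by the formula of Mackey; `ρ.IsIrr`:
  `ρ.inner ρ = 1`;
* `tw ρ τ = ρ ⊗ N^{-iτ}`; `dual ρ`: the dual; `NonDual ρ`: for every real `τ` the inner product of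
  `tw ρ τ` and `dual ρ` is zero;
* `Wts K`: finite families of finite extensions `F_j` of `K` with real numbers `c_j`;
  `s.wt v = ∑ c_j n_j(v)`; `s.mean = ∑ c_j`; `s.Dom ρ`: at almost all `v` whose norm is a prime number
  `s.wt v ≥ 0`, and `s.wt v ≥ 1` if `ρ.trace v ≠ 0`;
* `IsPartLine X i θ N' ρ B`: `H^i(X) = θ(-i/2) ⊕ H'` with `dim H' = N'` (for `θ = 0` and `N' = N`
  this is `H' = H^i(X)`), and `B` are the Euler factors of `L(H' ⊗ ρ, s)` at almost all primes; at the
  others arbitrary polynomials without zeros on the circle `|z| = q_v^{-i/2-1}`;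
* `LFun B`: the Euler product `∏_v B_v(q_v^{-s})⁻¹`.
-/

set_option autoImplicit false

namespace Pool.Agent.Results.MP_2b9663_nt.NonvanishingForSparseTwists

open Complex Filter Topology NumberField IsDedekindDomain Polynomial
open Pool.Agent.N172.HS (WRep Variety IsHecke above)
open Pool.Agent.W353.EF (LFun)
open Pool.Agent.Helper29X1.WG.SF (Wts NonDual IsPartLine)

/-- `log |L(i/2 + 1 + iτ + ε)| / log(1/ε)`, which tends to minus the order of a meromorphic
continuation at `i/2 + 1 + iτ`. -/
noncomputable def sizeAt {K : Type} [Field K] [NumberField K] (i : ℕ)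
    (B : HeightOneSpectrum (𝓞 K) → ℂ[X]) (τ ε : ℝ) : ℝ :=
  Real.log ‖LFun B ((i : ℂ) / 2 + 1 + τ * I + ε)‖ / Real.log (1 / ε)

theorem size_eq {K : Type} [Field K] [NumberField K] (i : ℕ)
    (B : HeightOneSpectrum (𝓞 K) → ℂ[X]) (τ ε : ℝ) :
    sizeAt i B τ ε = Pool.Agent.W353.EF.size i (Pool.Agent.Helper29X1.WG.shift τ B) ε := by
  unfold sizeAt Pool.Agent.W353.EF.size
  rw [Pool.Agent.Helper29X1.WG.shift_LFun]
  have e : ((i : ℂ) / 2 + 1 + ε + τ * I) = (i : ℂ) / 2 + 1 + τ * I + ε := by ring
  rw [e]

section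

open Pool.Agent.Helper29X1.WG Pool.Agent.Helper29X1.WG.SF

/-- An extension `F` with `r` automorphisms gives the weight `n_F(v) / r` with mean value `1 / r`. -/
theorem automorphisms {K F : Type} [Field K] [NumberField K] [Field F] [NumberField F]
    [Algebra K F] {ρ : WRep K} (hF : ∀ᶠ v in cofinite, above F v = ∅ → ρ.trace v = 0) :
    ∃ s : Wts K, s.Dom ρ ∧ s.mean = 1 / (Nat.card (F ≃ₐ[K] F) : ℝ) :=
  ⟨_, aut_dom hF, Wts.single_mean _ _⟩

/-- The induced representations. -/
theorem induced {K F : Type} [Field K] [NumberField K] [Field F] [NumberField F]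
    [Algebra K F] {𝔣 : Ideal (𝓞 F)} {k : (F →+* ℂ) → ℤ} {t : (F →+* ℂ) → ℝ}
    {χ : Ideal (𝓞 F) →*₀ ℂ} (h : IsHecke 𝔣 k t χ) :
    ∃ s : Wts K, s.Dom (ind (K := K) h) ∧ s.mean = 1 / (Nat.card (F ≃ₐ[K] F) : ℝ) :=
  automorphisms (F := F) (Eventually.of_forall fun v hv => ind_supp h v hv)

end

open Pool.Agent.Helper29X1.WG in
/-- **Zeros and poles on the edge for irreducible twists with small support.**  Let `X` be a variety
over the number field `K`, `i ≤ 2 dim X`, and `H^i(X) = θ(-i/2) ⊕ H'`, `dim H' = N'` (for `θ = 0`, `N'` is the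
Betti number).  Let `ρ` be an irreducible unitary representation of the Weil group of `K`, `s` a weight
which dominates the support of `tr ρ`, and `δ` the minimum of one and its mean value.

* No continuation is assumed: for all real `τ` and `η > 0`, and all small `ε > 0`,
  `(log |L(H' ⊗ ρ, i/2 + 1 + iτ + ε)| / log(1/ε))² ≤ N'² δ + η`.
* If `L(H' ⊗ ρ, s)` has a continuation which is meromorphic at all points of the line
  `Re s = i/2 + 1`, then its orders `m_τ` at `i/2 + 1 + iτ` are finite and zero outside of a finite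
  set, `∑ m_τ² ≤ N'² δ`, and `|∑ m_τ e^{iτx}| ≤ N' √δ` for all real `x`.  In particular there are no
  zeros and no poles on the line if `N'² δ < 1`.

If `ρ` is not self-dual up to a twist by `N^{-iτ}` then the squares are bounded by `N'² δ / 2`. -/
theorem result (K : Type) [Field K] [NumberField K] (X : Variety K) (i : ℕ) (hi : i ≤ 2 * X.dim)
    (θ : WRep K) (N' : ℕ) (ρ : WRep K) (hρ : ρ.IsIrr) (s : Wts K) (hs : s.Dom ρ)
    (B : HeightOneSpectrum (𝓞 K) → ℂ[X]) (hB : IsPartLine X i θ N' ρ B) :
    (∀ τ η : ℝ, 0 < η → ∀ᶠ ε : ℝ in 𝓝[>] 0,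
      sizeAt i B τ ε ^ 2 ≤ (N' : ℝ) ^ 2 * min 1 s.mean + η ∧
      (NonDual ρ → 2 * sizeAt i B τ ε ^ 2 ≤ (N' : ℝ) ^ 2 * min 1 s.mean + η)) ∧
    ∀ Λ : ℂ → ℂ, (∀ τ : ℝ, MeromorphicAt Λ ((i : ℂ) / 2 + 1 + τ * I)) →
      (∀ s : ℂ, (i : ℝ) / 2 + 1 < s.re → Λ s = LFun B s) →
      ∃ (m : ℝ → ℤ) (S : Finset ℝ),
        (∀ τ : ℝ, meromorphicOrderAt Λ ((i : ℂ) / 2 + 1 + τ * I) = m τ) ∧
        (∀ τ ∉ S, m τ = 0) ∧
        ∑ τ ∈ S, (m τ : ℝ) ^ 2 ≤ (N' : ℝ) ^ 2 * min 1 s.mean ∧
        (NonDual ρ → 2 * ∑ τ ∈ S, (m τ : ℝ) ^ 2 ≤ (N' : ℝ) ^ 2 * min 1 s.mean) ∧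
        ∀ x : ℝ, ‖∑ τ ∈ S, (m τ : ℂ) * exp (τ * x * I)‖ ≤ N' * Real.sqrt (min 1 s.mean) := by
  refine ⟨fun τ η hη => ?_, fun Λ h1 h2 => ?_⟩
  · simp only [size_eq]
    exact SF.var_sizes hi hρ hB s hs τ hη
  · obtain ⟨m, hm1, hm2⟩ := orders_gen
      (fun τ => (pairline_size hi (SF.part_pair hB) τ).1) h1 h2
    obtain ⟨S, h3, h4, h5, h6⟩ := SF.var_orders' hi hρ hB s hs hm2
    exact ⟨m, S, hm1, fun τ hτ => by rwa [h3, not_not] at hτ, h4, h5, h6⟩

end Pool.Agent.Results.MP_2b9663_nt.NonvanishingForSparseTwists
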